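import Pool.Agent.helper37.QX.SpecG

/-!
# qg:PNJ, powers of `S_i`

Helper file for MP_07c750_an (project QX).
-/

set_option autoImplicit false

namespace Pool.Agent.QX

/-- the action of `S_i` on the values at the words `i^k v` -/
def PNJ_T (a : ℕ → ℂ) (k : ℕ) : ℂ := a (k + 1) + (if k = 0 then 0 else a (k - 1))

theorem PNJ_step (i : Fin 4) (v : Wd) (hv : v.head? ≠ some i) (ψ : Wd → ℂ) (k : ℕ) :
    SO i ψ (List.replicate k i ++ v) = PNJ_T (fun k => ψ (List.replicate k i ++ v)) k := by
  cases k with
  | zero =>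
    cases v with
    | nil => simp [SO, PNJ_T]
    | cons m w =>
      have hm : m ≠ i := by
        rintro rfl
        exact hv rfl
      simp [SO, PNJ_T, hm, List.replicate_succ]
  | succ k =>
    show (if i = i then ψ (List.replicate k i ++ v) else 0) + ψ (i :: i :: (List.replicate k i ++ v)) = _
    rw [if_pos rfl]
    show _ = ψ (List.replicate (k + 1 + 1) i ++ v) +
      (if k + 1 = 0 then 0 else ψ (List.replicate (k + 1 - 1) i ++ v))
    rw [if_neg (Nat.succ_ne_zero k), add_comm]
    rfl

theorem PNJ_iter (i : Fin 4) (v : Wd) (hv : v.head? ≠ some i) (j : ℕ) : ∀ (ψ : Wd → ℂ) (k : ℕ),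
    ((SO i)^[j] ψ) (List.replicate k i ++ v) = (PNJ_T^[j] (fun k => ψ (List.replicate k i ++ v))) k := by
  induction j with
  | zero =>
    intro ψ k
    rfl
  | succ j ih =>
    intro ψ k
    rw [Function.iterate_succ_apply, ih (SO i ψ) k, Function.iterate_succ_apply]
    have h : (fun k => SO i ψ (List.replicate k i ++ v)) =
        PNJ_T (fun k => ψ (List.replicate k i ++ v)) := by
      funext l
      exact PNJ_step i v hv ψ l
    rw [h]

theorem PNJ_lin (c : ℂ) (j : ℕ) : ∀ a : ℕ → ℂ,
    PNJ_T^[j] (fun k => c * a k) = fun k => c * (PNJ_T^[j] a) k := by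
  induction j with
  | zero =>
    intro a
    rfl
  | succ j ih =>
    intro a
    rw [Function.iterate_succ_apply, Function.iterate_succ_apply, ← ih]
    congr 1
    funext k
    unfold PNJ_T
    split_ifs <;> ring

theorem PNJ_SW (i : Fin 4) (ψ : Wd → ℂ) (j : ℕ) : SW (List.replicate j i) ψ = (SO i)^[j] ψ := by
  induction j with
  | zero => rfl
  | succ j ih =>
    rw [Function.iterate_succ_apply', ← ih]
    rfl

theorem PNJ : PNJ_stmt := by
  intro i j ψ v hv h0
  have h1 : ((SO i)^[j] ψ) v = (PNJ_T^[j] (fun k => ψ (List.replicate k i ++ v))) 0 :=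
    PNJ_iter i v hv j ψ 0
  have h2 : (fun k => ψ (List.replicate k i ++ v)) =
      fun k => ψ v * (fun k : ℕ => if k = 0 then (1 : ℂ) else 0) k := by
    funext k
    cases k with
    | zero => simp
    | succ k =>
      rw [h0 (k + 1) (by omega)]
      simp
  have h3 : ta (List.replicate j i) = (PNJ_T^[j] (fun k => if k = 0 then (1 : ℂ) else 0)) 0 := by
    unfold ta
    rw [PNJ_SW]
    have h4 := PNJ_iter i [] (by simp) j e0 0
    have h5 : (fun k => e0 (List.replicate k i ++ [])) = fun k : ℕ => if k = 0 then (1 : ℂ) else 0 := by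
      funext k
      cases k with
      | zero => simp [e0]
      | succ k => simp [e0, List.replicate_succ]
    rw [h5] at h4
    exact h4
  rw [h1, h2, PNJ_lin, h3, mul_comm]

end Pool.Agent.QX
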