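import Pool.Agent.helper4.QX.SpecD

/-!
# qd:PTN, partition of a relatively compact fundamental domain into small cells

Helper file for MP_07c750_an (project QX).
-/

set_option autoImplicit false

open scoped MatrixGroups ContDiff Topology UpperHalfPlane
open UpperHalfPlane MeasureTheory ProbabilityTheory Filter Set Polynomial
open Pool.Agent.QU Pool.Agent.RP

namespace Pool.Agent.QX

/-- the cell of a point -/
noncomputable def PTN_idx (s : ℝ) (z : ℍ) : ℤ × ℤ := (⌊z.re / s⌋, ⌊z.im / s⌋)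

theorem PTN_meas (s : ℝ) : Measurable (PTN_idx s) := by
  unfold PTN_idx
  refine Measurable.prodMk ?_ ?_
  · exact Int.measurable_floor.comp (UpperHalfPlane.continuous_re.measurable.div_const s)
  · exact Int.measurable_floor.comp (UpperHalfPlane.continuous_im.measurable.div_const s)

theorem PTN_floor {s x y : ℝ} (hs : 0 < s) (h : ⌊x / s⌋ = ⌊y / s⌋) : |x - y| ≤ s := by
  have h1 := Int.abs_sub_lt_one_of_floor_eq_floor h
  rw [← sub_div, abs_div, abs_of_pos hs, div_lt_one hs] at h1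
  exact h1.le

theorem PTN_dist {s b : ℝ} (hs : 0 < s) (hb : 0 < b) {z w : ℍ} (hz : b ≤ z.im) (hw : b ≤ w.im)
    (h : PTN_idx s z = PTN_idx s w) : dist z w ≤ 2 * s / b := by
  have h1 : ⌊z.re / s⌋ = ⌊w.re / s⌋ := (Prod.ext_iff.1 h).1
  have h2 : ⌊z.im / s⌋ = ⌊w.im / s⌋ := (Prod.ext_iff.1 h).2
  have h3 := PTN_floor hs h1
  have h4 := PTN_floor hs h2
  have h5 : dist (z : ℂ) w ≤ 2 * s := by
    rw [Complex.dist_eq]
    refine (Complex.norm_le_abs_re_add_abs_im _).trans ?_
    have e1 : ((z : ℂ) - w).re = z.re - w.re := by simp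
    have e2 : ((z : ℂ) - w).im = z.im - w.im := by simp
    rw [e1, e2]
    linarith
  have h6 : b ≤ √(z.im * w.im) := by
    apply Real.le_sqrt_of_sq_le
    nlinarith
  refine (UpperHalfPlane.dist_le_dist_coe_div_sqrt z w).trans ?_
  exact div_le_div₀ (by linarith) h5 hb h6

theorem PTN : PTN_stmt := by
  classical
  intro Γ F hF
  obtain ⟨K, hK, hFK⟩ := hF.rel
  obtain ⟨a₀, ha₀⟩ := hK.exists_bound_of_continuousOn UpperHalfPlane.continuous_re.continuousOn
  obtain ⟨c₀, hc₀⟩ := hK.exists_bound_of_continuousOn UpperHalfPlane.continuous_im.continuousOn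
  obtain ⟨b₀, hb₀⟩ := hK.exists_bound_of_continuousOn (f := fun z : ℍ => (z.im)⁻¹)
    (UpperHalfPlane.continuous_im.inv₀ fun z => z.im_pos.ne').continuousOn
  set a : ℝ := |a₀| with ha
  set c : ℝ := |c₀| with hc
  set B : ℝ := |b₀| + 1 with hB
  have ha0 : 0 ≤ a := abs_nonneg _
  have hc0 : 0 ≤ c := abs_nonneg _
  have hB0 : 0 < B := by positivity
  have haK : ∀ z ∈ F, |z.re| ≤ a := fun z hz => (ha₀ z (hFK hz)).trans (le_abs_self _)
  have hcK : ∀ z ∈ F, z.im ≤ c := fun z hz =>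
    (le_abs_self _).trans ((hc₀ z (hFK hz)).trans (le_abs_self _))
  have hbK : ∀ z ∈ F, B⁻¹ ≤ z.im := by
    intro z hz
    have h1 : ‖(z.im)⁻¹‖ ≤ b₀ := hb₀ z (hFK hz)
    rw [Real.norm_eq_abs, abs_of_pos (inv_pos.2 z.im_pos)] at h1
    have h2 : (z.im)⁻¹ ≤ B := by
      have := le_abs_self b₀
      linarith
    exact inv_le_of_inv_le₀ z.im_pos h2
  refine ⟨(4 * a * B + 2) * (2 * c * B + 1), ?_, ?_⟩
  · have h1 : 0 ≤ a * B := by positivity
    have h2 : 0 ≤ c * B := by positivity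
    nlinarith [mul_nonneg h1 h2]
  · intro ζ hζ hζ1
    set s : ℝ := ζ / (2 * B) with hs
    have hs0 : 0 < s := by positivity
    set S : Finset (ℤ × ℤ) := (Finset.Icc ⌊-a / s⌋ ⌊a / s⌋ ×ˢ Finset.Icc 0 ⌊c / s⌋).filter
      (fun n => ∃ z ∈ F, PTN_idx s z = n) with hS
    have hmem : ∀ z ∈ F, PTN_idx s z ∈ S := by
      intro z hz
      rw [hS, Finset.mem_filter]
      refine ⟨?_, z, hz, rfl⟩
      rw [Finset.mem_product, Finset.mem_Icc, Finset.mem_Icc]
      have h1 := abs_le.1 (haK z hz)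
      refine ⟨⟨?_, ?_⟩, ?_, ?_⟩
      · exact Int.floor_le_floor (div_le_div_of_nonneg_right h1.1 hs0.le)
      · exact Int.floor_le_floor (div_le_div_of_nonneg_right h1.2 hs0.le)
      · exact Int.floor_nonneg.2 (div_nonneg z.im_pos.le hs0.le)
      · exact Int.floor_le_floor (div_le_div_of_nonneg_right (hcK z hz) hs0.le)
    have hex : ∀ n : S, ∃ z ∈ F, PTN_idx s z = n.1 := fun n => (Finset.mem_filter.1 n.2).2
    choose q hq using hex
    set e := S.equivFin.symm with he
    refine ⟨S.card, fun i => F ∩ PTN_idx s ⁻¹' {(e i).1}, fun i => q (e i), ?_, ?_, ?_, ?_, ?_, ?_⟩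
    · -- the number of cells
      have h1 : (S.card : ℝ) ≤ (Finset.Icc ⌊-a / s⌋ ⌊a / s⌋).card * (Finset.Icc 0 ⌊c / s⌋).card := by
        have h2 : S.card ≤ (Finset.Icc ⌊-a / s⌋ ⌊a / s⌋ ×ˢ Finset.Icc (0 : ℤ) ⌊c / s⌋).card :=
          Finset.card_le_card (Finset.filter_subset _ _)
        rw [Finset.card_product] at h2
        exact_mod_cast h2
      have h3 : ((Finset.Icc ⌊-a / s⌋ ⌊a / s⌋).card : ℝ) ≤ 2 * a / s + 2 := by
        rw [Int.card_Icc]
        have h4 : (0 : ℤ) ≤ ⌊a / s⌋ + 1 - ⌊-a / s⌋ := by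
          have : ⌊-a / s⌋ ≤ ⌊a / s⌋ := Int.floor_le_floor (div_le_div_of_nonneg_right (by linarith) hs0.le)
          omega
        have h5 : (((⌊a / s⌋ + 1 - ⌊-a / s⌋).toNat : ℕ) : ℝ) = ((⌊a / s⌋ + 1 - ⌊-a / s⌋ : ℤ) : ℝ) := by
          rw [← Int.cast_natCast, Int.toNat_of_nonneg h4]
        rw [h5]
        push_cast
        have h6 := Int.floor_le (a / s)
        have h7 := Int.lt_floor_add_one (-a / s)
        have h8 : -a / s = -(a / s) := neg_div _ _
        have h9 : 2 * a / s = 2 * (a / s) := by ring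
        rw [h8] at h7
        rw [h8, h9]
        linarith
      have h10 : ((Finset.Icc (0 : ℤ) ⌊c / s⌋).card : ℝ) ≤ c / s + 1 := by
        rw [Int.card_Icc]
        have h4 : (0 : ℤ) ≤ ⌊c / s⌋ + 1 - 0 := by
          have : 0 ≤ ⌊c / s⌋ := Int.floor_nonneg.2 (div_nonneg hc0 hs0.le)
          omega
        have h5 : (((⌊c / s⌋ + 1 - 0).toNat : ℕ) : ℝ) = ((⌊c / s⌋ + 1 - 0 : ℤ) : ℝ) := by
          rw [← Int.cast_natCast, Int.toNat_of_nonneg h4]
        rw [h5]
        push_cast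
        have h6 := Int.floor_le (c / s)
        linarith
      have h11 : 2 * a / s + 2 ≤ (4 * a * B + 2) / ζ := by
        rw [le_div_iff₀ hζ]
        have : (2 * a / s + 2) * ζ = 4 * a * B + 2 * ζ := by
          rw [hs]
          field_simp
          ring
        rw [this]
        linarith
      have h12 : c / s + 1 ≤ (2 * c * B + 1) / ζ := by
        rw [le_div_iff₀ hζ]
        have : (c / s + 1) * ζ = 2 * c * B + ζ := by
          rw [hs]
          field_simp
        rw [this]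
        linarith
      have h13 : (0 : ℝ) ≤ c / s + 1 := by positivity
      calc (S.card : ℝ) ≤ (Finset.Icc ⌊-a / s⌋ ⌊a / s⌋).card * (Finset.Icc 0 ⌊c / s⌋).card := h1
        _ ≤ (2 * a / s + 2) * (c / s + 1) :=
          mul_le_mul h3 h10 (Nat.cast_nonneg _) (by positivity)
        _ ≤ ((4 * a * B + 2) / ζ) * ((2 * c * B + 1) / ζ) :=
          mul_le_mul h11 h12 h13 (by positivity)
        _ = (4 * a * B + 2) * (2 * c * B + 1) / ζ ^ 2 := by
          field_simp
    · intro i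
      exact hF.meas.inter (PTN_meas s (measurableSet_singleton _))
    · intro i
      exact ⟨(hq (e i)).1, (hq (e i)).2⟩
    · ext z
      rw [Set.mem_iUnion]
      constructor
      · rintro ⟨i, hi⟩
        exact hi.1
      · intro hz
        refine ⟨S.equivFin ⟨PTN_idx s z, hmem z hz⟩, hz, ?_⟩
        show PTN_idx s z = (e (S.equivFin ⟨PTN_idx s z, hmem z hz⟩)).1
        rw [he, Equiv.symm_apply_apply]
    · intro i j hij
      rw [Set.disjoint_left]
      rintro z ⟨_, h1⟩ ⟨_, h2⟩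
      have h1' : PTN_idx s z = (e i).1 := h1
      have h2' : PTN_idx s z = (e j).1 := h2
      exact hij (e.injective (Subtype.ext (h1'.symm.trans h2')))
    · rintro i z ⟨hz, h1⟩ w ⟨hw, h2⟩
      have h1' : PTN_idx s z = (e i).1 := h1
      have h2' : PTN_idx s w = (e i).1 := h2
      refine (PTN_dist hs0 (inv_pos.2 hB0) (hbK z hz) (hbK w hw) (h1'.trans h2'.symm)).trans (le_of_eq ?_)
      rw [hs]
      field_simp

end Pool.Agent.QX
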